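import Pool.Agent.Lib.helper3.Rup

set_option autoImplicit false

namespace Pool.Agent.H.MP_ea5a80_co
open Pool.Agent.Lib.helper3.Rup

def dsL : List ℕ := [0, 1, 3, 7, 15, 19, 23, 31, 55, 63, 127, 183, 191, 255, 511, 1023, 1043, 1047, 1055, 1079, 1087, 1151, 1207, 1215, 1279, 1535, 2047, 3127, 3135, 3199, 3255, 3263, 3327, 3583, 4095, 7295, 7423, 7679, 8191, 11447, 11455, 11519, 11775, 12287, 15615, 15871, 16383, 32255, 32767, 65535, 76983, 76991, 77055, 77311, 77823, 81151, 81407, 81919, 97791, 98303, 131071, 228863, 229375, 262143, 524287, 1048575]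

/-- membership of partition `i` in the `j`-th down-set -/
def mem (j i : ℕ) : Bool := (dsL.getD j 0).testBit i

/-- the cell `(a, d)` lies in the `i`-th partition in the 3 by 3 box -/
def cell (i a d : ℕ) : Bool := decide (d < 1323869611226699957468827921748873280 / 4 ^ (3 * i + a) % 4)

structure Loc (m : List ℕ) (col ge H : ℕ → ℕ → ℕ → ℕ → Prop) : Prop where
  T : ∀ a b c d e, a < b → b < c → c < d → d < e → e < 7 → (col a b c d ↔ col b c d e) →
    (col a c d e ↔ col a b c d) ∧ (col a b d e ↔ col a b c d) ∧ (col a b c e ↔ col a b c d)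
  C : ∀ a b c d, a < b → b < c → c < d → d < 7 →
    (col a b c d → ge b c d 0 ∧ (ge a b c 0 → ge b c d 1) ∧ ¬ ge a b c 1) ∧
    (¬ col a b c d → ge b c d 2 ∧ (ge a b c 2 → ge b c d 3) ∧ ¬ ge a b c 3)
  G : ∀ a b c, (ge a b c 1 → ge a b c 0) ∧ (ge a b c 3 → ge a b c 2)
  H1 : ∀ a b c d e, a < b → b < c → c < 7 → d < 3 → e < 3 → (d ≠ 0 → ge a b c (d - 1)) →
    (e ≠ 0 → ge a b c (e + 1)) → H b c d e
  H2 : ∀ a b c d e, a < b → b < c → c < 7 → d < 3 → e < 3 → (d < 2 → ¬ ge a b c d) →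
    (e < 2 → ¬ ge a b c (e + 2)) → ¬ H a b d e
  U : ∀ a b, a < b → b < 7 → ∃ i < 20, mem (m.getD b 0) i = true ∧ mem (m.getD a 0) i = false ∧
    ∀ d < 3, ∀ e < 3, (H a b d e ↔ cell i d e = true)

def V (col ge H : ℕ → ℕ → ℕ → ℕ → Prop) (t a b c d : ℕ) : Prop :=
  if t = 0 then H a b c d else if t = 1 then ∀ x < 3, ∀ y < 3, (H a b x y ↔ cell (8 * c + d) x y = true)
  else if t = 2 then ge a b c d else col a b c d

def val (col ge H : ℕ → ℕ → ℕ → ℕ → Prop) (k : ℕ) : Prop :=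
  V col ge H (k % 4) (k / 4 % 8) (k / 32 % 8) (k / 256 % 8) (k / 2048)

def P (t a b c d : ℕ) : ℕ := 2 * (t + 4 * (a + 8 * (b + 8 * (c + 8 * d)))) + 2
def N (t a b c d : ℕ) : ℕ := 2 * (t + 4 * (a + 8 * (b + 8 * (c + 8 * d)))) + 3

theorem val_eq (col ge H : ℕ → ℕ → ℕ → ℕ → Prop) {t a b c : ℕ} (d : ℕ) (ht : t < 4) (ha : a < 8) (hb : b < 8)
    (hc : c < 8) : val col ge H (t + 4 * (a + 8 * (b + 8 * (c + 8 * d)))) = V col ge H t a b c d := by
  unfold val
  congr 1 <;> omega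

theorem WP (col ge H : ℕ → ℕ → ℕ → ℕ → Prop) {t a b c : ℕ} (d : ℕ) (ht : t < 4) (ha : a < 8) (hb : b < 8)
    (hc : c < 8) : W (val col ge H) (P t a b c d) ↔ V col ge H t a b c d := by
  rw [P, W_pos, val_eq _ _ _ _ ht ha hb hc]

theorem WN (col ge H : ℕ → ℕ → ℕ → ℕ → Prop) {t a b c : ℕ} (d : ℕ) (ht : t < 4) (ha : a < 8) (hb : b < 8)
    (hc : c < 8) : W (val col ge H) (N t a b c d) ↔ ¬ V col ge H t a b c d := by
  rw [N, W_neg, val_eq _ _ _ _ ht ha hb hc]

def g5 (ty a b c d e f : ℕ) : List ℕ :=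
  if ty = 0 then [N 3 a b c d, N 3 b c d e, if f = 0 then P 3 a c d e else if f = 1 then P 3 a b d e else P 3 a b c e]
  else [P 3 a b c d, P 3 b c d e, if f = 0 then N 3 a c d e else if f = 1 then N 3 a b d e else N 3 a b c e]

def g4 (ty a b c d : ℕ) : List ℕ :=
  if ty = 2 then [N 3 a b c d, P 2 b c d 0]
  else if ty = 3 then [N 3 a b c d, N 2 a b c 0, P 2 b c d 1]
  else if ty = 4 then [N 3 a b c d, N 2 a b c 1]
  else if ty = 5 then [P 3 a b c d, P 2 b c d 2]
  else if ty = 6 then [P 3 a b c d, N 2 a b c 2, P 2 b c d 3]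
  else [P 3 a b c d, N 2 a b c 3]

def g3 (ty a b c d e : ℕ) : List ℕ :=
  if ty = 8 then [N 2 a b c 1, P 2 a b c 0]
  else if ty = 9 then [N 2 a b c 3, P 2 a b c 2]
  else if ty = 10 then (if d = 0 then [] else [N 2 a b c (d - 1)]) ++
    (if e = 0 then [] else [N 2 a b c (e + 1)]) ++ [P 0 b c d e]
  else (if d < 2 then [P 2 a b c d] else []) ++ (if e < 2 then [P 2 a b c (e + 2)] else []) ++ [N 0 a b d e]

def g2 (m : List ℕ) (ty a b d e f : ℕ) : List ℕ :=
  if ty = 12 then ((List.range 20).filter fun i => mem (m.getD b 0) i && !mem (m.getD a 0) i).map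
    fun i => P 1 a b (i / 8) (i % 8)
  else [N 1 a b (f / 8) (f % 8), if cell f d e then P 0 a b d e else N 0 a b d e]

def gen' (m : List ℕ) (ty a b c d e f : ℕ) : ℕ :=
  if ty < 2 then (if a < b ∧ b < c ∧ c < d ∧ d < e ∧ e < 7 then cl (g5 ty a b c d e f) else 1)
  else if ty < 8 then (if a < b ∧ b < c ∧ c < d ∧ d < 7 then cl (g4 ty a b c d) else 1)
  else if ty < 12 then (if a < b ∧ b < c ∧ c < 7 ∧ d < 3 ∧ e < 3 then cl (g3 ty a b c d e) else 1)
  else (if a < b ∧ b < 7 ∧ d < 3 ∧ e < 3 ∧ f < 20 then cl (g2 m ty a b d e f) else 1)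

def gen (m : List ℕ) (p : ℕ) : ℕ :=
  gen' m (p % 16) (p / 16 % 8) (p / 128 % 8) (p / 1024 % 8) (p / 8192 % 8) (p / 65536 % 8) (p / 524288)

theorem gen_ok {m : List ℕ} {col ge H : ℕ → ℕ → ℕ → ℕ → Prop} (h : Loc m col ge H) (p : ℕ) :
    S (W (val col ge H)) (gen m p) := by
  unfold gen
  generalize p % 16 = ty, p / 16 % 8 = a, p / 128 % 8 = b, p / 1024 % 8 = c, p / 8192 % 8 = d,
    p / 65536 % 8 = e, p / 524288 = f
  unfold gen'
  split_ifs with h1 h2 h1 h2 h1 h2 h2 <;> try exact S_one _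
  all_goals rw [S_cl]
  · obtain ⟨h1, h2, h3, h4, h5⟩ := h2
    have := h.T a b c d e h1 h2 h3 h4 h5
    have ha : a < 8 := by omega
    have hb : b < 8 := by omega
    have hc : c < 8 := by omega
    have hd : d < 8 := by omega
    unfold g5
    split_ifs <;> simp [WP, WN, ha, hb, hc, hd, V] <;> tauto
  · obtain ⟨h1, h2, h3, h4⟩ := h2
    have := h.C a b c d h1 h2 h3 h4
    have ha : a < 8 := by omega
    have hb : b < 8 := by omega
    have hc : c < 8 := by omega
    have hd : d < 8 := by omega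
    unfold g4
    split_ifs <;> simp [WP, WN, ha, hb, hc, hd, V] <;> tauto
  · obtain ⟨h1, h2, h3, h4, h5⟩ := h2
    have k1 := h.G a b c
    have k2 := h.H1 a b c d e h1 h2 h3 h4 h5
    have k3 := h.H2 a b c d e h1 h2 h3 h4 h5
    have ha : a < 8 := by omega
    have hb : b < 8 := by omega
    have hc : c < 8 := by omega
    have hd : d < 8 := by omega
    unfold g3
    split_ifs <;> simp [WP, WN, ha, hb, hc, hd, V] <;> tauto
  · obtain ⟨h1, h2, h3, h4, h5⟩ := h2
    have ha : a < 8 := by omega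
    have hb : b < 8 := by omega
    have hd : d < 8 := by omega
    unfold g2
    split_ifs with k1 k2
    · obtain ⟨i, hi, k2, k3, k4⟩ := h.U a b h1 h2
      refine ⟨_, List.mem_map.mpr ⟨i, List.mem_filter.mpr ⟨List.mem_range.mpr hi, by simp only [k2, k3]; rfl⟩,
        rfl⟩, ?_⟩
      rw [WP _ _ _ _ (by norm_num) ha hb (by omega)]
      simpa [V, Nat.div_add_mod] using k4
    · have hf : f / 8 < 8 := by omega
      simp only [List.mem_cons, List.not_mem_nil, or_false, exists_eq_or_imp, exists_eq_left,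
        WP _ _ _ _ four_pos ha hb hd, WN _ _ _ _ (by norm_num : 1 < 4) ha hb hf, V, Nat.div_add_mod]
      simp only [one_ne_zero, if_false, if_true]
      exact or_iff_not_imp_left.mpr fun k => (not_not.mp k d h3 e h4).mpr k2
    · have hf : f / 8 < 8 := by omega
      simp only [List.mem_cons, List.not_mem_nil, or_false, exists_eq_or_imp, exists_eq_left,
        WN _ _ _ _ four_pos ha hb hd, WN _ _ _ _ (by norm_num : 1 < 4) ha hb hf, V, Nat.div_add_mod]
      simp only [one_ne_zero, if_false, if_true]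
      exact or_iff_not_imp_left.mpr fun k k' => k2 ((not_not.mp k d h3 e h4).mp k')

end Pool.Agent.H.MP_ea5a80_co
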