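import Pool.Agent.H.MP_ea5a80_co.NG

set_option autoImplicit false

namespace Pool.Agent.H.MP_ea5a80_co
open Pool.Agent.Lib.helper3.Rup

def oval (v : ℕ → ℕ) (k : ℕ) : Prop := v (k / 66) < v (k % 66)

def lt (a b : ℕ) : ℕ := if a < b then 2 * (a * 66 + b) + 2 else 2 * (b * 66 + a) + 3

def gen2 (p : ℕ) : ℕ :=
  if p % 3 = 0 then
    (if p / 3 % 66 ≠ p / 198 % 66 ∧ p / 198 % 66 ≠ p / 13068 % 66 ∧ p / 3 % 66 ≠ p / 13068 % 66 then
      cl [lt (p / 198 % 66) (p / 3 % 66), lt (p / 13068 % 66) (p / 198 % 66), lt (p / 3 % 66) (p / 13068 % 66)]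
    else 1)
  else if p % 3 = 1 then
    (if p / 3 % 66 ≠ p / 198 % 66 ∧ ∀ i < 20, mem (p / 3 % 66) i = true → mem (p / 198 % 66) i = true then
      cl [lt (p / 3 % 66) (p / 198 % 66)] else 1)
  else if NG.getD (p / 3) [] ∈ NG then
    cl ((List.range 6).map fun t => lt ((NG.getD (p / 3) []).getD (t + 1) 0) ((NG.getD (p / 3) []).getD t 0))
  else 1

def ordL0 : List ℕ := [0x20ba, 0x2bf4, 0x2d86, 0x3230, 0x4, 0xa000080000600004000020000a021920161a00005, 0xa, 0xe000080000600006021920161e0161800ac200009, 0x2d5c, 0x10, 0x1400008000120000400008021920161c00ac200007, 0x33a4, 0x467c, 0x57b0, 0x16, 0x1e0001c0001a0001800008026d4025ce0229e00007, 0x1c, 0x2200008000060000200008021920161e00ac000007, 0x22, 0x26000080001200006021920161c00ac600ac000009, 0x28, 0x2a000080001200002000040000a0219200ac400005, 0x3872, 0x3560, 0x561e, 0x2e, 0x3400032000300002e00008023c60229c0219000007, 0x34, 0x380002e00004023f2023c4022be0229c021900000b, 0x3a, 0x3c000320002e00006023f0022be0229c0219000009,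 0x44ea, 0x40, 0x4200030000400002e00008023f2022bc0219000007, 0x46, 0x46000400002e00006023f0022ea022bc0219000009, 0x4c, 0x4a0003000032000400002e0000a022e80219000005, 0x3a16, 0x3ba8, 0x52fa, 0x52, 0x5400052000500004e00008027de0229e0229800007, 0x58, 0x580004e000040280a027dc026d60229e022980000b, 0x5e, 0x5c000520004e0000602808026d60229e0229800009, 0x64, 0x600001c000500004e00008027ea025cc024c600007, 0x6a, 0x640001a0004e0000602816027e8025cc024c600009, 0x70, 0x680001c0001a0004e0000802814025cc024c600007, 0x10000240000c00006021920161e00005, 0x28000160006c0002c000080219200003, 0x33ce, 0xcf9ea, 0x72000700006e000060229a00003, 0x41ba, 0x10f242, 0x78000760006e00006024c400003, 0x200005a0005600074000080280a025ce0229e00007, 0x360003a0006e00006022be023f20229c00007, 0x66000620007a0000602816025cc00005, 0x5e000200007c00074000080229e025ce00005, 0x7e0003e0006e00006022be0229c00005, 0x800006a0007a00006025cc00003, 0x8200086000040229e00003, 0x840008800004022be00003,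 0x440006e0008a00006023f200003, 0x4c0006e00004022e800003, 0x480008e0006e0008a0008c0000a00001]

def ordE0 : Tr := (.node 0x48 .nil .nil)

theorem ordc0 : run gen2 (expo ordE0) ordL0 1 Tr.nil = true := by decide +kernel

theorem ordh0 (v : ℕ → ℕ) (h : ∀ p, S (W (oval v)) (gen2 p)) : ∀ p, S (W (oval v)) (imp ordE0 p) := chunk (cons_W _) h _ _ ordc0

theorem ord (v : ℕ → ℕ) (h : ∀ p, S (W (oval v)) (gen2 p)) : False := not_S_zero _ ((by decide +kernel : imp ordE0 1 = 0) ▸ ordh0 v h 1)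

theorem W_lt {v : ℕ → ℕ} (hv : ∀ a < 66, ∀ b < 66, v a = v b → a = b) {a b : ℕ} (ha : a < 66) (hb : b < 66)
    (hab : a ≠ b) : W (oval v) (lt a b) ↔ v a < v b := by
  unfold lt
  split_ifs with h
  · rw [W_pos, oval, show (a * 66 + b) / 66 = a by omega, show (a * 66 + b) % 66 = b by omega]
  · rw [W_neg, oval, show (b * 66 + a) / 66 = b by omega, show (b * 66 + a) % 66 = a by omega]
    have := mt (hv a ha b hb) hab
    omega

def sub (i k : ℕ) : Prop := ∀ d < 3, ∀ e < 3, cell i d e = true → cell k d e = true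

instance (i k : ℕ) : Decidable (sub i k) := by unfold sub; infer_instance

theorem ds_step : ∀ k < 20, ∀ r ∈ dsL, r < 2 ^ k → (∀ i < k, sub i k → r.testBit i = true) →
    2 ^ k + r ∈ dsL := by decide +kernel

theorem ds_idx : ∀ r ∈ dsL, ∃ j < 66, dsL.getD j 0 = r := by decide +kernel

theorem ds_all (p : ℕ → Prop) (hp : ∀ i k, sub i k → p k → p i) :
    ∃ j < 66, ∀ i < 20, mem j i = true ↔ p i := by
  have : ∀ k ≤ 20, ∃ r ∈ dsL, r < 2 ^ k ∧ ∀ i < k, r.testBit i = true ↔ p i := by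
    intro k
    induction k with
    | zero => exact fun _ => ⟨0, by decide, by decide, by simp⟩
    | succ k ih =>
      intro hk
      obtain ⟨r, hr, h1, h2⟩ := ih (by omega)
      by_cases h : p k
      · refine ⟨_, ds_step k hk r hr h1 fun i hi hs => (h2 i hi).mpr (hp i k hs h), by omega, fun i hi => ?_⟩
        rcases Nat.lt_succ_iff_lt_or_eq.mp hi with hi | rfl
        · rw [Nat.testBit_two_pow_add_gt hi, h2 i hi]
        · simp [Nat.testBit_two_pow_add_eq, Nat.testBit_lt_two_pow h1, h]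
      · refine ⟨r, hr, by omega, fun i hi => ?_⟩
        rcases Nat.lt_succ_iff_lt_or_eq.mp hi with hi | rfl
        · exact h2 i hi
        · simp [Nat.testBit_lt_two_pow h1, h]
  obtain ⟨r, hr, -, h⟩ := this 20 le_rfl
  obtain ⟨j, hj, rfl⟩ := ds_idx r hr
  exact ⟨j, hj, h⟩

set_option synthInstance.maxSize 4096 in
theorem part_bits : ∀ r < 512, (∀ d < 2, ∀ e < 3, r.testBit (3 * (d + 1) + e) = true → r.testBit (3 * d + e) = true) →
    (∀ d < 3, ∀ e < 2, r.testBit (3 * d + (e + 1)) = true → r.testBit (3 * d + e) = true) →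
    ∃ i < 20, ∀ d < 3, ∀ e < 3, r.testBit (3 * d + e) = cell i d e := by decide +kernel

theorem part_all (p : ℕ → ℕ → Prop) (h1 : ∀ d < 2, ∀ e < 3, p (d + 1) e → p d e)
    (h2 : ∀ d < 3, ∀ e < 2, p d (e + 1) → p d e) : ∃ i < 20, ∀ d < 3, ∀ e < 3, p d e ↔ cell i d e = true := by
  classical
  have key : ∀ d < 3, ∀ e < 3, (Nat.ofBits (n := 9) fun t => decide (p (t / 3) (t % 3))).testBit (3 * d + e) = true ↔
      p d e := by
    intro d hd e he
    rw [Nat.testBit_ofBits_lt _ _ (by omega)]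
    simp only [decide_eq_true_eq]
    rw [show (3 * d + e) / 3 = d by omega, show (3 * d + e) % 3 = e by omega]
  obtain ⟨i, hi, h⟩ := part_bits _ (Nat.ofBits_lt_two_pow (n := 9) fun t => decide (p (t / 3) (t % 3)))
    (fun d hd e he => by rw [key _ (by omega) _ he, key _ (by omega) _ he]; exact h1 d hd e he)
    (fun d hd e he => by rw [key _ hd _ (by omega), key _ hd _ (by omega)]; exact h2 d hd e he)
  exact ⟨i, hi, fun d hd e he => by rw [← h d hd e he, key d hd e he]⟩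

def ge (col : ℕ → ℕ → ℕ → ℕ → Prop) (x y z t : ℕ) : Prop :=
  if t = 0 then ∃ w < x, col w x y z else if t = 1 then ∃ w < x, col w x y z ∧ ∃ v < w, col v w x y
  else if t = 2 then ∃ w < x, ¬ col w x y z else ∃ w < x, ¬ col w x y z ∧ ∃ v < w, ¬ col v w x y

def HH (col : ℕ → ℕ → ℕ → ℕ → Prop) (y z d e : ℕ) : Prop :=
  ∃ x < y, (d ≠ 0 → ge col x y z (d - 1)) ∧ (e ≠ 0 → ge col x y z (e + 1))

theorem ng_ok : ∀ s ∈ NG, ∀ t < 6, s.getD t 0 < 66 ∧ s.getD (t + 1) 0 < 66 ∧ s.getD (t + 1) 0 ≠ s.getD t 0 := by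
  decide +kernel

theorem upper (col : ℕ → ℕ → ℕ → ℕ → Prop)
    (hT : ∀ a b c d e, a < b → b < c → c < d → d < e → e < 66 → (col a b c d ↔ col b c d e) →
      (col a c d e ↔ col a b c d) ∧ (col a b d e ↔ col a b c d) ∧ (col a b c e ↔ col a b c d))
    (hP : ∀ a b c d e f, a < b → b < c → c < d → d < e → e < f → f < 66 → (col a b c d ↔ col b c d e) →
      ¬ (col b c d e ↔ col c d e f)) : False := by
  have hC : ∀ a b c d, a < b → b < c → c < d → d < 66 →
      (col a b c d → ge col b c d 0 ∧ (ge col a b c 0 → ge col b c d 1) ∧ ¬ ge col a b c 1) ∧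
      (¬ col a b c d → ge col b c d 2 ∧ (ge col a b c 2 → ge col b c d 3) ∧ ¬ ge col a b c 3) := by
    intro a b c d h1 h2 h3 h4
    simp only [ge, if_true, one_ne_zero, if_false, OfNat.ofNat_ne_zero, OfNat.ofNat_ne_one, Nat.reduceEqDiff]
    refine ⟨fun h => ⟨⟨a, h1, h⟩, fun k => ⟨a, h1, h, k⟩, ?_⟩, fun h => ⟨⟨a, h1, h⟩, fun k => ⟨a, h1, h, k⟩, ?_⟩⟩
    · rintro ⟨w, hw, k1, v, hv, k2⟩
      exact hP v w a b c d hv hw h1 h2 h3 h4 (iff_of_true k2 k1) (iff_of_true k1 h)
    · rintro ⟨w, hw, k1, v, hv, k2⟩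
      exact hP v w a b c d hv hw h1 h2 h3 h4 (iff_of_false k2 k1) (iff_of_false k1 h)
  have hG : ∀ a b c, (ge col a b c 1 → ge col a b c 0) ∧ (ge col a b c 3 → ge col a b c 2) := by
    intro a b c
    simp only [ge, if_true, one_ne_zero, if_false, OfNat.ofNat_ne_zero, OfNat.ofNat_ne_one, Nat.reduceEqDiff]
    exact ⟨fun ⟨w, h1, h2, _⟩ => ⟨w, h1, h2⟩, fun ⟨w, h1, h2, _⟩ => ⟨w, h1, h2⟩⟩
  have hH2 : ∀ a b c d e, a < b → b < c → c < 66 → d < 3 → e < 3 → (d < 2 → ¬ ge col a b c d) →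
      (e < 2 → ¬ ge col a b c (e + 2)) → ¬ HH col a b d e := by
    rintro a b c d e h1 h2 h3 h4 h5 k1 k2 ⟨w, hw, k3, k4⟩
    have := hC w a b c hw h1 h2 h3
    by_cases h : col w a b c
    · have := this.1 h
      interval_cases d <;> simp_all
    · have := this.2 h
      interval_cases e <;> simp_all
  let M : ℕ → ℕ → Prop := fun z i => ∃ y < z, ∀ d < 3, ∀ e < 3, cell i d e = true → HH col y z d e
  have hU : ∀ y z, y < z → z < 66 → ∃ i < 20, M z i ∧ ¬ M y i ∧
      ∀ d < 3, ∀ e < 3, (HH col y z d e ↔ cell i d e = true) := by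
    intro y z h1 h2
    obtain ⟨i, hi, h⟩ := part_all (HH col y z) (by
      rintro d hd e - ⟨x, hx, k1, k2⟩
      refine ⟨x, hx, fun h => ?_, k2⟩
      obtain rfl : d = 1 := by omega
      exact (hG x y z).1 (k1 two_ne_zero)) (by
      rintro d - e he ⟨x, hx, k1, k2⟩
      refine ⟨x, hx, k1, fun h => ?_⟩
      obtain rfl : e = 1 := by omega
      exact (hG x y z).2 (k2 two_ne_zero))
    refine ⟨i, hi, ⟨y, h1, fun d hd e he k => (h d hd e he).mpr k⟩, ?_, h⟩
    rintro ⟨x, hx, k⟩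
    obtain ⟨d, hd, d1, d2⟩ : ∃ d < 3, (d ≠ 0 → ge col x y z (d - 1)) ∧ (d < 2 → ¬ ge col x y z d) := by
      by_cases g1 : ge col x y z 1
      · exact ⟨2, by norm_num, fun _ => g1, by norm_num⟩
      by_cases g0 : ge col x y z 0
      · exact ⟨1, by norm_num, fun _ => g0, fun _ => g1⟩
      · exact ⟨0, by norm_num, by norm_num, fun _ => g0⟩
    obtain ⟨e, he, e1, e2⟩ : ∃ e < 3, (e ≠ 0 → ge col x y z (e + 1)) ∧ (e < 2 → ¬ ge col x y z (e + 2)) := by
      by_cases g1 : ge col x y z 3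
      · exact ⟨2, by norm_num, fun _ => g1, by norm_num⟩
      by_cases g0 : ge col x y z 2
      · exact ⟨1, by norm_num, fun _ => g0, fun _ => g1⟩
      · exact ⟨0, by norm_num, by norm_num, fun _ => g0⟩
    exact hH2 x y z d e hx h1 h2 hd he d2 e2 (k d hd e he ((h d hd e he).mp ⟨x, hx, d1, e1⟩))
  have hM : ∀ z : Fin 66, ∃ j : Fin 66, ∀ i < 20, mem j i = true ↔ M z i := by
    intro z
    obtain ⟨j, hj, h⟩ := ds_all (M z) fun i k hs ⟨y, hy, h⟩ => ⟨y, hy, fun d hd e he c => h d hd e he (hs d hd e he c)⟩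
    exact ⟨⟨j, hj⟩, h⟩
  choose g hg using hM
  have ginj : Function.Injective g := by
    intro y z h
    by_contra hne
    wlog hlt : (y : ℕ) < z generalizing y z
    · exact this h.symm (Ne.symm hne) (by have := Fin.val_ne_of_ne hne; omega)
    obtain ⟨i, hi, k1, k2, -⟩ := hU y z hlt z.2
    exact k2 ((hg y i hi).mp (h ▸ (hg z i hi).mpr k1))
  have : ∀ j : ℕ, ∃ z < 66, j < 66 → (∀ i < 20, mem j i = true ↔ M z i) ∧
      ∃ h : z < 66, (g ⟨z, h⟩ : ℕ) = j := by
    intro j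
    by_cases hj : j < 66
    · obtain ⟨z, hz⟩ := Finite.injective_iff_surjective.mp ginj ⟨j, hj⟩
      exact ⟨z, z.2, fun _ => ⟨by simpa [hz] using hg z, z.2, by rw [hz]⟩⟩
    · exact ⟨0, by norm_num, fun h => absurd h hj⟩
  choose v hv1 hv2 using this
  have hv : ∀ a < 66, ∀ b < 66, v a = v b → a = b := by
    intro a ha b hb h
    obtain ⟨h1, k1⟩ := (hv2 a ha).2
    obtain ⟨h2, k2⟩ := (hv2 b hb).2
    rw [← k1, ← k2]
    simp only [h]
  refine ord v fun p => ?_
  unfold gen2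
  have ha := Nat.mod_lt (p / 3) (by norm_num : 66 > 0)
  have hb := Nat.mod_lt (p / 198) (by norm_num : 66 > 0)
  have hc := Nat.mod_lt (p / 13068) (by norm_num : 66 > 0)
  generalize p / 3 % 66 = a, p / 198 % 66 = b, p / 13068 % 66 = c, NG.getD (p / 3) [] = s at ha hb hc ⊢
  split_ifs with h1 h2 h1 h2 h2 <;> try exact S_one _
  all_goals rw [S_cl]
  · simp only [List.mem_cons, List.not_mem_nil, or_false, exists_eq_or_imp, exists_eq_left,
      W_lt hv hb ha h2.1.symm, W_lt hv hc hb h2.2.1.symm, W_lt hv ha hc h2.2.2]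
    have := mt (hv a ha b hb) h2.1
    omega
  · simp only [List.mem_cons, List.not_mem_nil, or_false, exists_eq_left, W_lt hv ha hb h2.1]
    by_contra hlt
    obtain ⟨i, hi, k1, k2, -⟩ := hU (v b) (v a) (by have := mt (hv a ha b hb) h2.1; omega) (hv1 a)
    exact k2 (((hv2 b hb).1 i hi).mp (h2.2 i hi (((hv2 a ha).1 i hi).mpr k1)))
  · by_contra hcon
    have hs := ng_ok s h2
    have hx : ∀ t < 6, v (s.getD t 0) < v (s.getD (t + 1) 0) := by
      intro t ht
      obtain ⟨k1, k2, k3⟩ := hs t ht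
      have k4 := mt (hv _ k2 _ k1) k3
      have : ¬ v (s.getD (t + 1) 0) < v (s.getD t 0) := fun k =>
        hcon ⟨_, List.mem_map.mpr ⟨t, List.mem_range.mpr ht, rfl⟩, (W_lt hv k2 k1 k3).mpr k⟩
      omega
    obtain ⟨x, hxe⟩ : ∃ x : ℕ → ℕ, x = fun t => v (s.getD t 0) := ⟨_, rfl⟩
    have hm : ∀ a b, a < b → b < 7 → x a < x b := by
      intro a b h
      induction b, h using Nat.le_induction with
      | base => exact fun h => hxe ▸ hx a (by omega)
      | succ b _ ih => exact fun h => (ih (by omega)).trans (hxe ▸ hx b (by omega))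
    have h66 : ∀ a, x a < 66 := fun a => hxe ▸ hv1 _
    have hs' : ∀ t < 7, s.getD t 0 < 66 := by
      intro t ht
      rcases t with _ | t
      exacts [(hs 0 (by norm_num)).1, (hs t (by omega)).2.1]
    refine ng (fun a b c d => col (x a) (x b) (x c) (x d)) (fun a b c t => ge col (x a) (x b) (x c) t)
      (fun a b d e => HH col (x a) (x b) d e) s h2 ⟨?_, ?_, fun a b c => hG _ _ _, ?_, ?_, ?_⟩
    · intro a b c d e h1 h2 h3 h4 h5
      exact hT _ _ _ _ _ (hm _ _ h1 (by omega)) (hm _ _ h2 (by omega)) (hm _ _ h3 (by omega)) (hm _ _ h4 h5) (h66 _)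
    · intro a b c d h1 h2 h3 h4
      exact hC _ _ _ _ (hm _ _ h1 (by omega)) (hm _ _ h2 (by omega)) (hm _ _ h3 h4) (h66 _)
    · intro a b c d e h1 h2 h3 _ _ k1 k2
      exact ⟨x a, hm _ _ h1 (by omega), k1, k2⟩
    · intro a b c d e h1 h2 h3
      exact hH2 _ _ _ d e (hm _ _ h1 (by omega)) (hm _ _ h2 h3) (h66 _)
    · intro a b h1 h2
      obtain ⟨i, hi, k1, k2, k3⟩ := hU _ _ (hm a b h1 h2) (h66 _)
      rw [hxe] at k1 k2
      exact ⟨i, hi, ((hv2 _ (hs' b h2)).1 i hi).mpr k1,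
        Bool.eq_false_iff.mpr fun k => k2 (((hv2 _ (hs' a (by omega))).1 i hi).mp k), k3⟩

theorem ds_new : ∀ z < 66, ∀ y < z, ∃ i < 20, mem z i = true ∧ mem y i = false := by decide +kernel

theorem ds_down : ∀ j < 66, ∀ k < 20, mem j k = true → ∀ i < 20, sub i k → mem j i = true := by decide +kernel

theorem cell_down : ∀ i < 20, ∀ d < 3, ∀ e < 3, cell i d e = true → ∀ d' ≤ d, ∀ e' ≤ e, cell i d' e' = true := by
  decide +kernel

theorem lower : ∃ col : ℕ → ℕ → ℕ → ℕ → Prop, ∀ a b c d e f, a < b → b < c → c < d → d < e → e < f → f < 66 →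
    (col a b c d ↔ col b c d e) → ¬ (col b c d e ↔ col c d e f) := by
  have h1 : ∀ y z, ∃ i < 20, y < z → z < 66 → mem z i = true ∧ mem y i = false := by
    intro y z
    by_cases h : y < z ∧ z < 66
    · obtain ⟨i, hi, k⟩ := ds_new z h.2 y h.1
      exact ⟨i, hi, fun _ _ => k⟩
    · exact ⟨0, by norm_num, fun k1 k2 => absurd ⟨k1, k2⟩ h⟩
  choose D hD1 hD2 using h1
  have h2 : ∀ x y z, ∃ d < 3, ∃ e < 3, x < y → y < z → z < 66 →
      cell (D y z) d e = true ∧ ¬ cell (D x y) d e = true := by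
    intro x y z
    by_cases h : x < y ∧ y < z ∧ z < 66
    · have : ¬ sub (D y z) (D x y) := fun k => by
        have := ds_down y (by omega) _ (hD1 x y) (hD2 x y h.1 (by omega)).1 _ (hD1 y z) k
        rw [(hD2 y z h.2.1 h.2.2).2] at this
        cases this
      unfold sub at this
      push Not at this
      obtain ⟨d, hd, e, he, k⟩ := this
      exact ⟨d, hd, e, he, fun _ _ _ => k⟩
    · exact ⟨0, by norm_num, 0, by norm_num, fun k1 k2 k3 => absurd ⟨k1, k2, k3⟩ h⟩
  choose c1 hc1 c2 hc2 hc using h2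
  have h3 : ∀ w x y z, w < x → x < y → y < z → z < 66 → c1 w x y < c1 x y z ∨ c2 w x y < c2 x y z := by
    intro w x y z k1 k2 k3 k4
    by_contra hcon
    exact (hc x y z k2 k3 k4).2 (cell_down _ (hD1 x y) _ (hc1 w x y) _ (hc2 w x y)
      (hc w x y k1 k2 (by omega)).1 _ (by omega) _ (by omega))
  refine ⟨fun w x y z => c1 w x y < c1 x y z, fun a b c d e f k1 k2 k3 k4 k5 k6 => ?_⟩
  have := h3 a b c d k1 k2 k3 (by omega)
  have := h3 b c d e k2 k3 k4 (by omega)
  have := h3 c d e f k3 k4 k5 k6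
  have := hc1 d e f
  have := hc2 d e f
  omega

end Pool.Agent.H.MP_ea5a80_co
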